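import Pool.Agent.H703R3.MBDefs

/-!
# Billiards in tables that agree with the round ball near an equatorial circle
-/

set_option autoImplicit false

open Set Filter Topology
open scoped RealInnerProductSpace ContDiff

namespace Pool.Agent.U660.Bil

open Pool.Agent.H703R3.MB

variable {n : ℕ}

/-- The angular momentum in the coordinate plane `(i, j)` of the oriented line `l = (p, v)`. -/
def mom (i j : Fin n) (l : Euc n × Euc n) : ℝ := l.1 i * l.2 j - l.1 j * l.2 i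

/-- `Ω` coincides with the closed unit ball on the region `x_i² + x_j² ≥ c²`. -/
def AgreesWithBall (Ω : Set (Euc n)) (i j : Fin n) (c : ℝ) : Prop :=
  ∀ x : Euc n, c ^ 2 ≤ x i ^ 2 + x j ^ 2 → (x ∈ Ω ↔ ‖x‖ ≤ 1)

theorem cont_coord (i j : Fin n) : Continuous fun x : Euc n => x i ^ 2 + x j ^ 2 := by
  fun_prop

theorem coord_le {i j : Fin n} (hij : i ≠ j) (x : Euc n) : x i ^ 2 + x j ^ 2 ≤ ‖x‖ ^ 2 := by
  rw [EuclideanSpace.norm_sq_eq]
  have h1 : ∑ k ∈ ({i, j} : Finset (Fin n)), ‖x k‖ ^ 2 ≤ ∑ k, ‖x k‖ ^ 2 :=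
    Finset.sum_le_sum_of_subset_of_nonneg (Finset.subset_univ _) fun _ _ _ => by positivity
  rw [Finset.sum_pair hij] at h1
  simpa using h1

/-- the open region in which `Ω` contains all points -/
theorem mem_interior_of {Ω : Set (Euc n)} {i j : Fin n} {c : ℝ} (hA : AgreesWithBall Ω i j c)
    {x : Euc n} (h1 : c ^ 2 < x i ^ 2 + x j ^ 2) (h2 : ‖x‖ < 1) : x ∈ interior Ω := by
  have ho : IsOpen {y : Euc n | c ^ 2 < y i ^ 2 + y j ^ 2 ∧ ‖y‖ < 1} :=
    (isOpen_lt continuous_const (cont_coord i j)).inter (isOpen_lt continuous_norm continuous_const)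
  exact interior_maximal (fun y hy => (hA y hy.1.le).2 hy.2.le) ho ⟨h1, h2⟩

theorem near (i j : Fin n) {c : ℝ} {x : Euc n} (w : Euc n) (h1 : c ^ 2 < x i ^ 2 + x j ^ 2) :
    ∃ δ > 0, ∀ s : ℝ, 0 ≤ s → s < δ → c ^ 2 < (x + s • w) i ^ 2 + (x + s • w) j ^ 2 := by
  have hc : Continuous fun s : ℝ => (x + s • w) i ^ 2 + (x + s • w) j ^ 2 :=
    (cont_coord i j).comp (by fun_prop : Continuous fun s : ℝ => x + s • w)
  have h4 : ∀ᶠ s : ℝ in 𝓝 0, c ^ 2 < (x + s • w) i ^ 2 + (x + s • w) j ^ 2 :=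
    (hc.tendsto 0).eventually (lt_mem_nhds (by simpa using h1))
  obtain ⟨δ, hδ, hs⟩ := Metric.eventually_nhds_iff.1 h4
  refine ⟨δ, hδ, fun s h0 h => hs ?_⟩
  rw [Real.dist_eq, sub_zero, abs_of_nonneg h0]
  exact h

theorem norm_add_smul_sq (x w : Euc n) (s : ℝ) :
    ‖x + s • w‖ ^ 2 = ‖x‖ ^ 2 + 2 * s * ⟪x, w⟫ + s ^ 2 * ‖w‖ ^ 2 := by
  rw [norm_add_sq_real, real_inner_smul_right, norm_smul, mul_pow, Real.norm_eq_abs, sq_abs]
  ring

section Table

variable {Ω : Set (Euc n)} {i j : Fin n} {c₀ : ℝ}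

theorem frontier_norm (hcl : IsClosed Ω) (hA : AgreesWithBall Ω i j c₀) {x : Euc n}
    (hx : x ∈ frontier Ω) (h1 : c₀ ^ 2 < x i ^ 2 + x j ^ 2) : ‖x‖ = 1 := by
  have hx1 : x ∈ Ω := hcl.frontier_subset hx
  have h2 : ‖x‖ ≤ 1 := (hA x h1.le).1 hx1
  by_contra h3
  exact hx.2 (mem_interior_of hA h1 (lt_of_le_of_ne h2 h3))

theorem normal_le (hc : Convex ℝ Ω) (hA : AgreesWithBall Ω i j c₀) {x : Euc n}
    (hx : x ∈ Ω) (hn : ‖x‖ = 1) (h1 : c₀ ^ 2 < x i ^ 2 + x j ^ 2) (y : Euc n) (hy : y ∈ Ω) :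
    ⟪x, y - x⟫ ≤ 0 := by
  by_contra hcon
  push Not at hcon
  obtain ⟨δ, hδ, hs⟩ := near i j (y - x) h1
  set s := min (δ / 2) 1 with hsdef
  have hs0 : 0 < s := lt_min (by linarith) one_pos
  have hs1 : s ≤ 1 := min_le_right _ _
  have hsδ : s < δ := lt_of_le_of_lt (min_le_left _ _) (by linarith)
  have h2 := hs s hs0.le hsδ
  have h3 : x + s • (y - x) ∈ Ω := hc.add_smul_sub_mem hx hy ⟨hs0.le, hs1⟩
  have h4 := (hA _ h2.le).1 h3
  have h5 := norm_add_smul_sq x (y - x) s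
  rw [hn] at h5
  have h6 : ‖x + s • (y - x)‖ ^ 2 ≤ 1 := by
    have := norm_nonneg (x + s • (y - x))
    nlinarith
  have h7 : 0 < s * ⟪x, y - x⟫ := mul_pos hs0 hcon
  have h8 : 0 ≤ s ^ 2 * ‖y - x‖ ^ 2 := by positivity
  nlinarith

theorem normal_unique (hA : AgreesWithBall Ω i j c₀) {x ν : Euc n}
    (hn : ‖x‖ = 1) (h1 : c₀ ^ 2 < x i ^ 2 + x j ^ 2) (hν : IsOuterNormal Ω x ν) : ν = x := by
  obtain ⟨δ, hδ, hs⟩ := near i j (ν - x) h1
  set s := min (δ / 2) 1 with hsdef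
  have hs0 : 0 < s := lt_min (by linarith) one_pos
  have hs1 : s ≤ 1 := min_le_right _ _
  have hsδ : s < δ := lt_of_le_of_lt (min_le_left _ _) (by linarith)
  have h2 := hs s hs0.le hsδ
  have h3 : ‖x + s • (ν - x)‖ ≤ 1 := by
    have hb : Convex ℝ (Metric.closedBall (0 : Euc n) 1) := convex_closedBall _ _
    have := hb.add_smul_sub_mem (x := x) (y := ν) (by simp [hn]) (by simp [hν.1])
      (t := s) ⟨hs0.le, hs1⟩
    simpa using this
  have h4 := hν.2 _ ((hA _ h2.le).2 h3)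
  rw [add_sub_cancel_left, real_inner_smul_right, inner_sub_right, real_inner_self_eq_norm_sq,
    hν.1] at h4
  have h5 : ⟪ν, x⟫ ≥ 1 := by
    by_contra hcon
    push Not at hcon
    have : 0 < s * (1 ^ 2 - ⟪ν, x⟫) := mul_pos hs0 (by linarith)
    linarith
  have h6 : ⟪ν, x⟫ ≤ 1 := by
    have := real_inner_le_norm ν x
    rwa [hν.1, hn, one_mul] at this
  exact (inner_eq_one_iff_of_norm_eq_one hν.1 hn).1 (le_antisymm h6 h5)

theorem outerNormal_eq (hc : Convex ℝ Ω) (hA : AgreesWithBall Ω i j c₀) {x : Euc n}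
    (hx : x ∈ Ω) (hn : ‖x‖ = 1) (h1 : c₀ ^ 2 < x i ^ 2 + x j ^ 2) : outerNormal Ω x = x := by
  have h : IsOuterNormal Ω x (outerNormal Ω x) :=
    Classical.epsilon_spec (p := IsOuterNormal Ω x) ⟨x, hn, normal_le hc hA hx hn h1⟩
  exact normal_unique hA hn h1 h

theorem normal_lt (hc : Convex ℝ Ω) (hA : AgreesWithBall Ω i j c₀) {x : Euc n}
    (hx : x ∈ Ω) (hn : ‖x‖ = 1) (h1 : c₀ ^ 2 < x i ^ 2 + x j ^ 2) (y : Euc n)
    (hy : y ∈ interior Ω) : ⟪x, y - x⟫ < 0 := by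
  have hcs : Tendsto (fun s : ℝ => y + s • x) (𝓝 0) (𝓝 y) := by
    have : Continuous fun s : ℝ => y + s • x := by fun_prop
    simpa using this.tendsto 0
  have h3 : ∀ᶠ s : ℝ in 𝓝 0, y + s • x ∈ Ω :=
    hcs.eventually (mem_interior_iff_mem_nhds.1 hy)
  obtain ⟨δ, hδ, hs⟩ := Metric.eventually_nhds_iff.1 h3
  have h4 := hs (y := δ / 2) (by rw [Real.dist_eq, sub_zero, abs_of_pos (by linarith)]; linarith)
  have h5 := normal_le hc hA hx hn h1 _ h4
  have h6 : y + (δ / 2) • x - x = (y - x) + (δ / 2) • x := by abel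
  rw [h6, inner_add_right, real_inner_smul_right, real_inner_self_eq_norm_sq, hn] at h5
  linarith

/-! ### exit points -/

theorem exit_spec (hK : IsCompact Ω) {l : Euc n × Euc n} (hl : l ∈ lines Ω) :
    ∃ b : ℝ, exitPoint Ω l = l.1 + b • l.2 ∧ l.1 + b • l.2 ∈ Ω ∧
      l.1 + b • l.2 ∈ frontier Ω ∧ ∀ t : ℝ, l.1 + t • l.2 ∈ Ω → t ≤ b := by
  obtain ⟨hl1, hl2, t0, ht0⟩ := hl
  set A : Set ℝ := {t : ℝ | l.1 + t • l.2 ∈ Ω} with hA
  have hcont : Continuous fun t : ℝ => l.1 + t • l.2 := by fun_prop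
  have hAc : IsClosed A := hK.isClosed.preimage hcont
  have hAne : A.Nonempty := ⟨t0, (interior_subset ht0 : l.1 + t0 • l.2 ∈ Ω)⟩
  obtain ⟨R, hR⟩ := hK.isBounded.exists_norm_le
  have hAb : BddAbove A := by
    refine ⟨R + ‖l.1‖, fun t ht => ?_⟩
    have h1 := hR _ ht
    have h2 : ‖t • l.2‖ ≤ ‖l.1 + t • l.2‖ + ‖l.1‖ := by
      have h9 : t • l.2 = (l.1 + t • l.2) - l.1 := by abel
      calc ‖t • l.2‖ = ‖(l.1 + t • l.2) - l.1‖ := by rw [← h9]
        _ ≤ _ := norm_sub_le _ _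
    rw [norm_smul, hl1, mul_one, Real.norm_eq_abs] at h2
    linarith [le_abs_self t]
  have hmem : sSup A ∈ A := hAc.csSup_mem hAne hAb
  refine ⟨sSup A, rfl, hmem, ⟨subset_closure hmem, fun hint => ?_⟩, fun t ht => le_csSup hAb ht⟩
  have h3 : ∀ᶠ s : ℝ in 𝓝 (sSup A), l.1 + s • l.2 ∈ Ω :=
    (hcont.tendsto (sSup A)).eventually (mem_interior_iff_mem_nhds.1 hint)
  obtain ⟨δ, hδ, hs⟩ := Metric.eventually_nhds_iff.1 h3
  have h4 := hs (y := sSup A + δ / 2) (by
    rw [Real.dist_eq, add_sub_cancel_left, abs_of_pos (by linarith)]; linarith)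
  have h5 : sSup A + δ / 2 ≤ sSup A := le_csSup hAb h4
  linarith

theorem mom_sq_le {i j : Fin n} (hij : i ≠ j) (x v : Euc n) (hv : ‖v‖ = 1) :
    (x i * v j - x j * v i) ^ 2 ≤ x i ^ 2 + x j ^ 2 := by
  have h1 := coord_le hij v
  rw [hv] at h1
  have h2 : 0 ≤ x i ^ 2 + x j ^ 2 := by positivity
  nlinarith [sq_nonneg (x i * v i + x j * v j)]

theorem mom_lineThrough (i j : Fin n) (x v : Euc n) :
    mom i j (lineThrough x v) = x i * v j - x j * v i := by
  unfold mom lineThrough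
  simp only [PiLp.sub_apply, PiLp.smul_apply, smul_eq_mul]
  ring

/-- the data of an exit point of a line of large angular momentum -/
theorem exit_data (hK : IsCompact Ω) (hc : Convex ℝ Ω) (hij : i ≠ j) (h0 : 0 < c₀)
    (hA : AgreesWithBall Ω i j c₀) {l : Euc n × Euc n} (hl : l ∈ lines Ω)
    (hm : c₀ < |mom i j l|) :
    ∃ x : Euc n, exitPoint Ω l = x ∧ l = lineThrough x l.2 ∧ x ∈ Ω ∧ ‖x‖ = 1 ∧
      c₀ ^ 2 < x i ^ 2 + x j ^ 2 ∧ 0 < ⟪x, l.2⟫ ∧ outerNormal Ω x = x := by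
  obtain ⟨b, hb1, hb2, hb3, hb4⟩ := exit_spec hK hl
  obtain ⟨hl1, hl2, t0, ht0⟩ := hl
  set x := l.1 + b • l.2 with hx
  have hin : ⟪x, l.2⟫ = b := by
    rw [hx, inner_add_left, real_inner_smul_left, real_inner_self_eq_norm_sq, hl1, hl2]
    ring
  have hline : l = lineThrough x l.2 := by
    unfold lineThrough
    rw [hin, hx, add_sub_cancel_right]
  have hmx : mom i j l = x i * l.2 j - x j * l.2 i := by
    conv_lhs => rw [hline]
    exact mom_lineThrough i j x l.2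
  have h1 : c₀ ^ 2 < x i ^ 2 + x j ^ 2 := by
    refine lt_of_lt_of_le ?_ (mom_sq_le hij x l.2 hl1)
    rw [← hmx, ← sq_abs (mom i j l)]
    exact pow_lt_pow_left₀ hm h0.le (by norm_num)
  have hn := frontier_norm hK.isClosed hA hb3 h1
  refine ⟨x, hb1, hline, hb2, hn, h1, ?_, outerNormal_eq hc hA hb2 hn h1⟩
  have h2 := normal_lt hc hA hb2 hn h1 _ ht0
  have h3 : l.1 + t0 • l.2 - x = (t0 - b) • l.2 := by
    rw [hx, sub_smul]
    abel
  rw [h3, real_inner_smul_right, hin] at h2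
  rw [hin]
  by_contra hcon
  push Not at hcon
  have h5 : t0 - b ≤ 0 := by linarith [hb4 t0 (interior_subset ht0)]
  nlinarith

/-- the exit point of the line through a boundary point in an outward direction -/
theorem exitPoint_lineThrough (hc : Convex ℝ Ω) (hA : AgreesWithBall Ω i j c₀) {x v : Euc n}
    (hx : x ∈ Ω) (hn : ‖x‖ = 1) (h1 : c₀ ^ 2 < x i ^ 2 + x j ^ 2) (hxv : 0 < ⟪x, v⟫) :
    exitPoint Ω (lineThrough x v) = x := by
  unfold exitPoint lineThrough
  have hg : IsGreatest {t : ℝ | x - ⟪x, v⟫ • v + t • v ∈ Ω} ⟪x, v⟫ := by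
    constructor
    · show x - ⟪x, v⟫ • v + ⟪x, v⟫ • v ∈ Ω
      rw [sub_add_cancel]
      exact hx
    · intro t ht
      by_contra hcon
      push Not at hcon
      have h2 := normal_le hc hA hx hn h1 _ ht
      have h3 : x - ⟪x, v⟫ • v + t • v - x = (t - ⟪x, v⟫) • v := by
        rw [sub_smul]
        abel
      rw [h3, real_inner_smul_right] at h2
      have : 0 < (t - ⟪x, v⟫) * ⟪x, v⟫ := mul_pos (by linarith) hxv
      linarith
  show x - ⟪x, v⟫ • v + sSup {t : ℝ | x - ⟪x, v⟫ • v + t • v ∈ Ω} • v = x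
  rw [hg.csSup_eq, sub_add_cancel]

/-- reflection -/
theorem refl_norm {x v : Euc n} (hn : ‖x‖ = 1) (hv : ‖v‖ = 1) : ‖v - (2 * ⟪v, x⟫) • x‖ = 1 := by
  have h : ‖v - (2 * ⟪v, x⟫) • x‖ ^ 2 = 1 := by
    rw [norm_sub_sq_real, real_inner_smul_right, norm_smul, mul_pow, Real.norm_eq_abs, sq_abs, hn,
      hv]
    ring
  have h0 := norm_nonneg (v - (2 * ⟪v, x⟫) • x)
  nlinarith

theorem refl_inner {x v : Euc n} (hn : ‖x‖ = 1) : ⟪x, v - (2 * ⟪v, x⟫) • x⟫ = - ⟪x, v⟫ := by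
  rw [inner_sub_right, real_inner_smul_right, real_inner_self_eq_norm_sq, hn,
    real_inner_comm v x]
  ring

theorem lineThrough_mem (hA : AgreesWithBall Ω i j c₀) {x w : Euc n}
    (hn : ‖x‖ = 1) (h1 : c₀ ^ 2 < x i ^ 2 + x j ^ 2) (hw : ‖w‖ = 1) (hxw : ⟪x, w⟫ ≠ 0) :
    lineThrough x w ∈ lines Ω := by
  refine ⟨hw, ?_, ?_⟩
  · show ⟪x - ⟪x, w⟫ • w, w⟫ = 0
    rw [inner_sub_left, real_inner_smul_left, real_inner_self_eq_norm_sq, hw]
    ring
  · -- choose the sign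
    set σ : ℝ := if 0 < ⟪x, w⟫ then -1 else 1 with hσ
    have hσ2 : σ ^ 2 = 1 := by
      rw [hσ]
      split_ifs <;> norm_num
    have hneg : ⟪x, σ • w⟫ < 0 := by
      rw [real_inner_smul_right, hσ]
      split_ifs with h
      · linarith
      · have : ⟪x, w⟫ < 0 := lt_of_le_of_ne (not_lt.1 h) hxw
        linarith
    obtain ⟨δ, hδ, hs⟩ := near i j (σ • w) h1
    set q := ⟪x, σ • w⟫ with hq
    set s := min (δ / 2) (-q) with hsdef
    have hs0 : 0 < s := lt_min (by linarith) (by linarith)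
    have hs1 : s ≤ -q := min_le_right _ _
    have hsδ : s < δ := lt_of_le_of_lt (min_le_left _ _) (by linarith)
    have h2 := hs s hs0.le hsδ
    refine ⟨⟪x, w⟫ + s * σ, ?_⟩
    have he : (lineThrough x w).1 + (⟪x, w⟫ + s * σ) • (lineThrough x w).2 = x + s • (σ • w) := by
      show x - ⟪x, w⟫ • w + (⟪x, w⟫ + s * σ) • w = x + s • (σ • w)
      rw [add_smul, smul_smul]
      abel
    rw [he]
    refine mem_interior_of hA h2 ?_
    have h5 := norm_add_smul_sq x (σ • w) s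
    rw [hn, ← hq, norm_smul, hw, mul_one, Real.norm_eq_abs, sq_abs, hσ2] at h5
    have h6 : ‖x + s • (σ • w)‖ ^ 2 < 1 := by
      rw [h5]
      nlinarith
    have h7 := norm_nonneg (x + s • (σ • w))
    by_contra hcon
    push Not at hcon
    nlinarith

/-- reversal of the orientation -/
def rev (l : Euc n × Euc n) : Euc n × Euc n := (l.1, -l.2)

theorem rev_rev (l : Euc n × Euc n) : rev (rev l) = l := by
  unfold rev
  simp

theorem rev_mem {l : Euc n × Euc n} (hl : l ∈ lines Ω) : rev l ∈ lines Ω := by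
  obtain ⟨h1, h2, t, ht⟩ := hl
  refine ⟨by simpa [rev] using h1, by simp [rev, h2], -t, ?_⟩
  have : (rev l).1 + (-t) • (rev l).2 = l.1 + t • l.2 := by
    simp [rev]
  rw [this]
  exact ht

theorem mom_rev (i j : Fin n) (l : Euc n × Euc n) : mom i j (rev l) = - mom i j l := by
  unfold mom rev
  simp only [PiLp.neg_apply]
  ring

theorem rev_lineThrough (x v : Euc n) : rev (lineThrough x v) = lineThrough x (-v) := by
  unfold rev lineThrough
  simp

/-- the billiard map on lines of large angular momentum -/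
theorem billiard_spec (hK : IsCompact Ω) (hc : Convex ℝ Ω) (hij : i ≠ j) (h0 : 0 < c₀)
    (hA : AgreesWithBall Ω i j c₀) {l : Euc n × Euc n} (hl : l ∈ lines Ω)
    (hm : c₀ < |mom i j l|) :
    billiardMap Ω l ∈ lines Ω ∧ mom i j (billiardMap Ω l) = mom i j l ∧
      billiardMap Ω (rev (billiardMap Ω l)) = rev l := by
  obtain ⟨x, hx1, hx2, hx3, hx4, hx5, hx6, hx7⟩ := exit_data hK hc hij h0 hA hl hm
  have hl1 : ‖l.2‖ = 1 := hl.1
  have hT : billiardMap Ω l = lineThrough x (l.2 - (2 * ⟪l.2, x⟫) • x) := by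
    unfold billiardMap
    rw [hx1, hx7]
  set w := l.2 - (2 * ⟪l.2, x⟫) • x with hw
  have hw1 : ‖w‖ = 1 := refl_norm hx4 hl1
  have hw2 : ⟪x, w⟫ = - ⟪x, l.2⟫ := refl_inner hx4
  refine ⟨?_, ?_, ?_⟩
  · rw [hT]
    exact lineThrough_mem hA hx4 hx5 hw1 (by rw [hw2]; linarith)
  · rw [hT, mom_lineThrough]
    conv_rhs => rw [hx2, mom_lineThrough]
    rw [hw]
    simp only [PiLp.sub_apply, PiLp.smul_apply, smul_eq_mul]
    ring
  · rw [hT, rev_lineThrough]
    have hpos : 0 < ⟪x, -w⟫ := by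
      rw [inner_neg_right, hw2]
      linarith
    unfold billiardMap
    rw [exitPoint_lineThrough hc hA hx3 hx4 hx5 hpos, hx7]
    have h5 : (lineThrough x (-w)).2 = -w := rfl
    rw [h5]
    have h6 : -w - (2 * ⟪-w, x⟫) • x = - l.2 := by
      have h7 : ⟪-w, x⟫ = ⟪l.2, x⟫ := by
        rw [inner_neg_left, real_inner_comm, hw2, real_inner_comm]
        ring
      rw [h7, hw]
      abel
    rw [h6, ← rev_lineThrough, ← hx2]

/-- the level set of the angular momentum -/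
def level (Ω : Set (Euc n)) (i j : Fin n) (c : ℝ) : Set (Euc n × Euc n) :=
  {l | l ∈ lines Ω ∧ mom i j l = c}

theorem contDiff_mom (i j : Fin n) : ContDiff ℝ ∞ (mom i j : Euc n × Euc n → ℝ) := by
  unfold mom
  fun_prop

theorem isInvariant (hK : IsCompact Ω) (hc : Convex ℝ Ω) (hij : i ≠ j) (h0 : 0 < c₀)
    (hA : AgreesWithBall Ω i j c₀) {c : ℝ} (hc0 : c₀ < |c|) (hc1 : |c| < 1) :
    IsInvariantHypersurface Ω (level Ω i j c) where
  nonempty := by
    refine ⟨(EuclideanSpace.single i c, EuclideanSpace.single j 1), ⟨?_, ?_, 0, ?_⟩, ?_⟩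
    · simp
    · rw [EuclideanSpace.inner_single_left]
      simp [hij]
    · show EuclideanSpace.single i c + (0 : ℝ) • EuclideanSpace.single j (1 : ℝ) ∈ interior Ω
      rw [zero_smul, add_zero]
      refine mem_interior_of hA ?_ ?_
      · simp only [PiLp.single_apply, if_true, if_neg hij.symm]
        rw [← sq_abs c]
        have := pow_lt_pow_left₀ hc0 h0.le (by norm_num : 2 ≠ 0)
        linarith
      · simpa using hc1
    · unfold mom
      simp [hij, hij.symm]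
  subset := fun l hl => hl.1
  closed := ⟨{l | mom i j l = c}, isClosed_eq (contDiff_mom i j).continuous continuous_const, rfl⟩
  smooth := by
    rintro l ⟨hl, hlc⟩
    have hcne : c ≠ 0 := by
      rintro rfl
      simp at hc0
      linarith
    refine ⟨fun l' => mom i j l' - c, (contDiff_mom i j).sub contDiff_const, ?_, (l.1, 0), ?_, ?_⟩
    · refine Eventually.of_forall fun l' hl' => ?_
      constructor
      · intro h
        show mom i j l' - c = 0
        rw [h.2, sub_self]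
      · intro h
        exact ⟨hl', by have : mom i j l' - c = 0 := h; linarith⟩
    · refine ⟨by simp, ?_⟩
      show ⟪l.1, l.2⟫ + ⟪l.1, 0⟫ = 0
      rw [inner_zero_right, hl.2.1, add_zero]
    · have hd : HasFDerivAt (fun y => mom i j y - c) (fderiv ℝ (fun y => mom i j y - c) l) l :=
        (((contDiff_mom i j).sub contDiff_const).differentiable (by simp)).differentiableAt.hasFDerivAt
      have hl' : HasDerivAt (fun s : ℝ => l + s • ((l.1, 0) : Euc n × Euc n)) (l.1, 0) 0 := by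
        simpa using ((hasDerivAt_id (0 : ℝ)).smul_const ((l.1, 0) : Euc n × Euc n)).const_add l
      have hcomp : HasDerivAt (fun s : ℝ => mom i j (l + s • ((l.1, 0) : Euc n × Euc n)) - c)
          (fderiv ℝ (fun y => mom i j y - c) l (l.1, 0)) 0 :=
        HasFDerivAt.comp_hasDerivAt (x := (0 : ℝ)) (f := fun s : ℝ => l + s • ((l.1, 0) : Euc n × Euc n))
          (l := fun y => mom i j y - c) (l' := fderiv ℝ (fun y => mom i j y - c) l)
          (by simpa using hd) hl'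
      have he : (fun s : ℝ => mom i j (l + s • ((l.1, 0) : Euc n × Euc n)) - c) =
          fun s : ℝ => s * c := by
        ext s
        have : mom i j (l + s • ((l.1, 0) : Euc n × Euc n)) = (1 + s) * mom i j l := by
          unfold mom
          simp
          ring
        rw [this, hlc]
        ring
      rw [he] at hcomp
      have h2 : HasDerivAt (fun s : ℝ => s * c) c 0 := by
        simpa using (hasDerivAt_id (0 : ℝ)).mul_const c
      rw [hcomp.unique h2]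
      exact hcne
  invariant := by
    apply Subset.antisymm
    · rintro _ ⟨l, ⟨hl, hlc⟩, rfl⟩
      obtain ⟨h1, h2, _⟩ := billiard_spec hK hc hij h0 hA hl (by rw [hlc]; exact hc0)
      exact ⟨h1, by rw [h2, hlc]⟩
    · rintro l ⟨hl, hlc⟩
      have hr : rev l ∈ lines Ω := rev_mem hl
      have hrm : mom i j (rev l) = -c := by rw [mom_rev, hlc]
      obtain ⟨h1, h2, h3⟩ := billiard_spec hK hc hij h0 hA hr (by rw [hrm, abs_neg]; exact hc0)
      refine ⟨rev (billiardMap Ω (rev l)), ⟨rev_mem h1, ?_⟩, ?_⟩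
      · rw [mom_rev, h2, hrm, neg_neg]
      · rw [h3, rev_rev]

end Table

end Pool.Agent.U660.Bil
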