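import Pool.Agent.U660.Bil.Pert

/-!
# Existence of the tables
-/

set_option autoImplicit false

open Set Filter Topology
open scoped RealInnerProductSpace ContDiff

namespace Pool.Agent.U660.Bil

open Pool.Agent.H703R3.MB

variable {n : ℕ}

theorem agrees {ε : ℝ} {φ : Euc n → ℝ} {i j : Fin n} {c₀ : ℝ}
    (h : ∀ x : Euc n, c₀ ^ 2 ≤ x i ^ 2 + x j ^ 2 → φ x = 0) :
    AgreesWithBall {x : Euc n | ‖x‖ ^ 2 + ε * φ x ≤ 1} i j c₀ := by
  intro x hx
  show ‖x‖ ^ 2 + ε * φ x ≤ 1 ↔ ‖x‖ ≤ 1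
  rw [h x hx, mul_zero, add_zero]
  have := norm_nonneg x
  constructor
  · intro h
    nlinarith
  · intro h
    nlinarith

/-- small perturbations of the ball that vanish near the equatorial circle -/
theorem perturbation {i j : Fin n} {c₀ : ℝ} (h0 : 0 < c₀) (h1 : c₀ < 1)
    {φ : Euc n → ℝ} (hφ : ContDiff ℝ ∞ φ) (hs : HasCompactSupport φ)
    (h : ∀ x : Euc n, c₀ ^ 2 ≤ x i ^ 2 + x j ^ 2 → φ x = 0) (hx : ∃ x : Euc n, ‖x‖ = 1 ∧ φ x ≠ 0) :
    ∃ ε₀ : ℝ, 0 < ε₀ ∧ ∀ ε : ℝ, ε ≠ 0 → |ε| < ε₀ →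
      IsTable {x : Euc n | ‖x‖ ^ 2 + ε * φ x ≤ 1} ∧
      AgreesWithBall {x : Euc n | ‖x‖ ^ 2 + ε * φ x ≤ 1} i j c₀ ∧
      {x : Euc n | ‖x‖ ^ 2 + ε * φ x ≤ 1} ≠ Metric.closedBall 0 1 := by
  obtain ⟨ε₀, hε₀, hsm⟩ := exists_small hφ hs
  refine ⟨ε₀, hε₀, fun ε hne hε => ?_⟩
  have hS := hsm ε hε
  refine ⟨?_, agrees h, ?_⟩
  · refine hS.isTable (y := EuclideanSpace.single i c₀) ?_
    unfold fp
    rw [h]
    · rw [PiLp.norm_single, mul_zero, add_zero, Real.norm_eq_abs, sq_abs]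
      nlinarith
    · simp only [PiLp.single_apply, if_true]
      have h5 := sq_nonneg (if j = i then c₀ else (0 : ℝ))
      linarith
  · intro hB
    obtain ⟨x, hx, hφx⟩ := hx
    have hB' : body ε φ = Metric.closedBall 0 1 := hB
    have hfr : x ∈ frontier (body ε φ) := by
      rw [hB', frontier_closedBall _ one_ne_zero]
      simpa using hx
    have h2 := hS.frontier_eq hfr
    unfold fp at h2
    rw [hx] at h2
    have h3 : ε * φ x = 0 := by linarith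
    exact (mul_ne_zero hne hφx) h3

theorem exists_index (hn : 3 ≤ n) (i j : Fin n) : ∃ k : Fin n, i ≠ k ∧ j ≠ k := by
  by_contra hcon
  push Not at hcon
  have h : (Finset.univ : Finset (Fin n)) ⊆ {i, j} := by
    intro k _
    by_cases hk : i = k
    · simp [hk]
    · simp [hcon k hk]
  have h1 := Finset.card_le_card h
  rw [Finset.card_univ, Fintype.card_fin] at h1
  have h2 : Finset.card {i, j} ≤ 2 := Finset.card_le_two
  omega

/-- there are suitable perturbations -/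
theorem exists_phi (hn : 3 ≤ n) {i j : Fin n} (hij : i ≠ j) {c₀ : ℝ} (h0 : 0 < c₀) :
    ∃ φ : Euc n → ℝ, ContDiff ℝ ∞ φ ∧ HasCompactSupport φ ∧
      (∀ x : Euc n, c₀ ^ 2 ≤ x i ^ 2 + x j ^ 2 → φ x = 0) ∧ ∃ x : Euc n, ‖x‖ = 1 ∧ φ x ≠ 0 := by
  obtain ⟨k, hik, hjk⟩ := exists_index hn i j
  set e : Euc n := EuclideanSpace.single k (1 : ℝ) with he
  let b : ContDiffBump e := ⟨c₀ / 2, c₀, by linarith, by linarith⟩
  have hbe : b e = 1 := b.one_of_mem_closedBall (by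
    rw [Metric.mem_closedBall, dist_self]
    exact b.rIn_pos.le)
  refine ⟨b, b.contDiff, b.hasCompactSupport, ?_, e, by simp [he], by rw [hbe]; exact one_ne_zero⟩
  intro x hx
  apply b.zero_of_le_dist
  show c₀ ≤ dist x e
  rw [dist_eq_norm]
  have h1 := coord_le hij (x - e)
  have h2 : (x - e) i = x i := by simp [he, hik]
  have h3 : (x - e) j = x j := by simp [he, hjk]
  rw [h2, h3] at h1
  have h4 := norm_nonneg (x - e)
  nlinarith

end Pool.Agent.U660.Bil
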