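import Pool.Agent.U660.Bil.Ball

/-!
# Small perturbations of the round ball are tables; ellipsoids among them
-/

set_option autoImplicit false

open Set Filter Topology
open scoped RealInnerProductSpace ContDiff

namespace Pool.Agent.U660.Bil

open Pool.Agent.H703R3.MB

variable {n : ℕ}

/-- the function `‖x‖² + ε φ(x)` -/
noncomputable def fp (ε : ℝ) (φ : Euc n → ℝ) (x : Euc n) : ℝ := ‖x‖ ^ 2 + ε * φ x

/-- the body `‖x‖² + ε φ(x) ≤ 1` -/
def body (ε : ℝ) (φ : Euc n → ℝ) : Set (Euc n) := {x | ‖x‖ ^ 2 + ε * φ x ≤ 1}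

theorem contDiff_fderiv {φ : Euc n → ℝ} (hφ : ContDiff ℝ ∞ φ) : ContDiff ℝ ∞ (fderiv ℝ φ) :=
  hφ.fderiv_right (m := ∞) (by simp)

theorem continuous_fderiv2 {φ : Euc n → ℝ} (hφ : ContDiff ℝ ∞ φ) :
    Continuous (fderiv ℝ (fderiv ℝ φ)) :=
  (contDiff_fderiv hφ).continuous_fderiv (by simp)

theorem quad_bound {E : Type} [NormedAddCommGroup E] [NormedSpace ℝ E] [FiniteDimensional ℝ E]
    {f : E → (E →L[ℝ] E →L[ℝ] ℝ)} (hc : Continuous f) {K : Set E} (hK : IsCompact K)
    (h0 : ∀ x ∉ K, f x = 0) : ∃ M : ℝ, 0 ≤ M ∧ ∀ x w, |f x w w| ≤ M * ‖w‖ ^ 2 := by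
  have hcont : Continuous fun p : E × E => f p.1 p.2 p.2 :=
    ((hc.comp continuous_fst).clm_apply continuous_snd).clm_apply continuous_snd
  have hcomp : IsCompact (K ×ˢ Metric.sphere (0 : E) 1) := hK.prod (isCompact_sphere 0 1)
  obtain ⟨C, hC⟩ := hcomp.exists_bound_of_continuousOn hcont.continuousOn
  refine ⟨|C|, abs_nonneg C, fun x w => ?_⟩
  by_cases hx : x ∈ K
  · by_cases hw : w = 0
    · subst hw
      simp
    · have hw' : 0 < ‖w‖ := norm_pos_iff.2 hw
      have h1 := hC (x, ‖w‖⁻¹ • w) ⟨hx, by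
        rw [mem_sphere_zero_iff_norm, norm_smul, norm_inv, norm_norm, inv_mul_cancel₀ hw'.ne']⟩
      simp only [map_smul, smul_apply, smul_eq_mul, Real.norm_eq_abs] at h1
      have h2 : f x w w = ‖w‖ ^ 2 * (‖w‖⁻¹ * (‖w‖⁻¹ * f x w w)) := by
        field_simp
      rw [h2, abs_mul, abs_of_nonneg (by positivity : (0:ℝ) ≤ ‖w‖ ^ 2), mul_comm]
      exact mul_le_mul_of_nonneg_right (h1.trans (le_abs_self C)) (by positivity)
  · rw [h0 x hx]
    simp
    positivity

theorem fderiv2_zero {φ : Euc n → ℝ} {x : Euc n} (hx : x ∉ tsupport φ) :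
    fderiv ℝ (fderiv ℝ φ) x = 0 := by
  have h1 : x ∉ tsupport (fderiv ℝ φ) := fun h => hx (tsupport_fderiv_subset ℝ h)
  by_contra hcon
  exact h1 (support_fderiv_subset ℝ hcon)

theorem exists_bound {φ : Euc n → ℝ} (hφ : ContDiff ℝ ∞ φ) (hs : HasCompactSupport φ) :
    ∃ M : ℝ, 0 < M ∧ (∀ x, |φ x| ≤ M) ∧
      ∀ x w, |fderiv ℝ (fderiv ℝ φ) x w w| ≤ M * ‖w‖ ^ 2 := by
  obtain ⟨C, hC⟩ := hφ.continuous.bounded_above_of_compact_support hs
  obtain ⟨D, hD0, hD⟩ := quad_bound (continuous_fderiv2 hφ) hs (fun x hx => fderiv2_zero hx)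
  refine ⟨|C| + D + 1, by positivity, fun x => ?_, fun x w => ?_⟩
  · have h2 := hC x
    rw [Real.norm_eq_abs] at h2
    have h3 := le_abs_self C
    linarith
  · have h2 := hD x w
    have h3 := abs_nonneg C
    have h4 : 0 ≤ (|C| + 1) * ‖w‖ ^ 2 := by positivity
    nlinarith

theorem line_hasDerivAt {E : Type} [NormedAddCommGroup E] [NormedSpace ℝ E] {ψ : Euc n → E}
    (hψ : Differentiable ℝ ψ) (x w : Euc n) (s : ℝ) :
    HasDerivAt (fun s : ℝ => ψ (x + s • w)) (fderiv ℝ ψ (x + s • w) w) s := by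
  have hl : HasDerivAt (fun s : ℝ => x + s • w) w s := by
    simpa using ((hasDerivAt_id s).smul_const w).const_add x
  exact HasFDerivAt.comp_hasDerivAt (x := s) (f := fun s : ℝ => x + s • w)
    (l := ψ) (l' := fderiv ℝ ψ (x + s • w)) (hψ _).hasFDerivAt hl

theorem fp_deriv {φ : Euc n → ℝ} (hφ : ContDiff ℝ ∞ φ) (ε : ℝ) (x w : Euc n) (s : ℝ) :
    HasDerivAt (fun s : ℝ => fp ε φ (x + s • w))
      (2 * ⟪x, w⟫ + 2 * s * ‖w‖ ^ 2 + ε * fderiv ℝ φ (x + s • w) w) s := by
  have h1 := (line_hasDerivAt (hφ.differentiable (by simp)) x w s).const_mul ε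
  have h2 : HasDerivAt (fun s : ℝ => ‖x‖ ^ 2 + 2 * s * ⟪x, w⟫ + s ^ 2 * ‖w‖ ^ 2)
      (2 * ⟪x, w⟫ + 2 * s * ‖w‖ ^ 2) s := by
    have := (((hasDerivAt_id' s).const_mul 2).mul_const ⟪x, w⟫).const_add (‖x‖ ^ 2)
    have h3 := this.fun_add ((hasDerivAt_pow 2 s).mul_const (‖w‖ ^ 2))
    refine h3.congr_deriv ?_
    push_cast
    ring
  have h3 := h2.fun_add h1
  have he : (fun s : ℝ => fp ε φ (x + s • w)) = fun s : ℝ =>
      ‖x‖ ^ 2 + 2 * s * ⟪x, w⟫ + s ^ 2 * ‖w‖ ^ 2 + ε * φ (x + s • w) := by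
    ext s
    unfold fp
    rw [norm_add_smul_sq]
  rw [he]
  exact h3

theorem fp_deriv2 {φ : Euc n → ℝ} (hφ : ContDiff ℝ ∞ φ) (ε : ℝ) (x w : Euc n) (s : ℝ) :
    HasDerivAt (fun s : ℝ => 2 * ⟪x, w⟫ + 2 * s * ‖w‖ ^ 2 + ε * fderiv ℝ φ (x + s • w) w)
      (2 * ‖w‖ ^ 2 + ε * fderiv ℝ (fderiv ℝ φ) (x + s • w) w w) s := by
  have hd : ContDiff ℝ ∞ (fderiv ℝ φ) := contDiff_fderiv hφ
  have h1 := ((line_hasDerivAt (hd.differentiable (by simp)) x w s).clm_apply
    (hasDerivAt_const s w)).const_mul ε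
  have h2 : HasDerivAt (fun s : ℝ => 2 * ⟪x, w⟫ + 2 * s * ‖w‖ ^ 2) (2 * ‖w‖ ^ 2) s := by
    have := (((hasDerivAt_id' s).const_mul 2).mul_const (‖w‖ ^ 2)).const_add (2 * ⟪x, w⟫)
    refine this.congr_deriv ?_
    ring
  refine (h2.fun_add h1).congr_deriv ?_
  simp

/-- hypotheses on the size of the perturbation -/
structure Small (ε : ℝ) (φ : Euc n → ℝ) : Prop where
  cd : ContDiff ℝ ∞ φ
  bd : ∀ x, |ε * φ x| ≤ 1
  bd2 : ∀ x w, |ε * fderiv ℝ (fderiv ℝ φ) x w w| ≤ ‖w‖ ^ 2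

theorem exists_small {φ : Euc n → ℝ} (hφ : ContDiff ℝ ∞ φ) (hs : HasCompactSupport φ) :
    ∃ ε₀ : ℝ, 0 < ε₀ ∧ ∀ ε : ℝ, |ε| < ε₀ → Small ε φ := by
  obtain ⟨M, hM, h1, h2⟩ := exists_bound hφ hs
  refine ⟨1 / M, by positivity, fun ε hε => ⟨hφ, fun x => ?_, fun x w => ?_⟩⟩
  · rw [abs_mul]
    have h3 : |ε| * M ≤ 1 := by
      rw [lt_div_iff₀ hM] at hε
      exact hε.le
    calc |ε| * |φ x| ≤ |ε| * M := mul_le_mul_of_nonneg_left (h1 x) (abs_nonneg _)
      _ ≤ 1 := h3
  · rw [abs_mul]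
    have h3 : |ε| * M ≤ 1 := by
      rw [lt_div_iff₀ hM] at hε
      exact hε.le
    have h4 : |fderiv ℝ (fderiv ℝ φ) x w w| ≤ M * ‖w‖ ^ 2 := h2 x w
    calc |ε| * |fderiv ℝ (fderiv ℝ φ) x w w| ≤ |ε| * (M * ‖w‖ ^ 2) :=
          mul_le_mul_of_nonneg_left h4 (abs_nonneg _)
      _ = (|ε| * M) * ‖w‖ ^ 2 := by ring
      _ ≤ 1 * ‖w‖ ^ 2 := by gcongr
      _ = ‖w‖ ^ 2 := one_mul _

namespace Small

variable {ε : ℝ} {φ : Euc n → ℝ}

theorem deriv_line (h : Small ε φ) (x w : Euc n) :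
    (deriv fun s : ℝ => fp ε φ (x + s • w)) = fun s : ℝ =>
      2 * ⟪x, w⟫ + 2 * s * ‖w‖ ^ 2 + ε * fderiv ℝ φ (x + s • w) w :=
  funext fun s => (fp_deriv h.cd ε x w s).deriv

theorem deriv2_line (h : Small ε φ) (x w : Euc n) (s : ℝ) :
    deriv (deriv fun s : ℝ => fp ε φ (x + s • w)) s =
      2 * ‖w‖ ^ 2 + ε * fderiv ℝ (fderiv ℝ φ) (x + s • w) w w := by
  rw [h.deriv_line]
  exact (fp_deriv2 h.cd ε x w s).deriv

theorem deriv2_pos (h : Small ε φ) (x : Euc n) {w : Euc n} (hw : w ≠ 0) (s : ℝ) :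
    0 < deriv (deriv fun s : ℝ => fp ε φ (x + s • w)) s := by
  rw [h.deriv2_line]
  have h1 := (abs_le.1 (h.bd2 (x + s • w) w)).1
  have h2 : 0 < ‖w‖ := norm_pos_iff.2 hw
  have h3 : 0 < ‖w‖ ^ 2 := by positivity
  linarith

theorem contDiff (h : Small ε φ) : ContDiff ℝ ∞ (fp ε φ) :=
  (contDiff_norm_sq ℝ).add (contDiff_const.mul h.cd)

theorem strictConvexOn (h : Small ε φ) (x : Euc n) {w : Euc n} (hw : w ≠ 0) :
    StrictConvexOn ℝ univ fun s : ℝ => fp ε φ (x + s • w) := by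
  refine strictConvexOn_univ_of_deriv2_pos ?_ fun s => ?_
  · exact h.contDiff.continuous.comp (by fun_prop)
  · exact h.deriv2_pos x hw s

theorem isClosed (h : Small ε φ) : IsClosed (body ε φ) :=
  isClosed_le h.contDiff.continuous continuous_const

theorem interior_of_lt (h : Small ε φ) {x : Euc n} (hx : fp ε φ x < 1) :
    x ∈ interior (body ε φ) :=
  interior_maximal (fun y hy => le_of_lt (show fp ε φ y < 1 from hy))
    (isOpen_lt h.contDiff.continuous continuous_const : IsOpen {y | fp ε φ y < 1}) hx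

theorem strictConvex (h : Small ε φ) : StrictConvex ℝ (body ε φ) := by
  intro x hx y hy hxy a b ha hb hab
  apply h.interior_of_lt
  have hw : y - x ≠ 0 := sub_ne_zero.2 hxy.symm
  have h1 := (h.strictConvexOn x hw).2 (mem_univ 0) (mem_univ 1) zero_ne_one ha hb hab
  simp only [smul_eq_mul, mul_zero, zero_add, mul_one, zero_smul, add_zero, one_smul,
    add_sub_cancel] at h1
  have h2 : a • x + b • y = x + b • (y - x) := by
    rw [smul_sub, show a = 1 - b by linarith, sub_smul, one_smul]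
    abel
  rw [h2]
  have h3 : fp ε φ x ≤ 1 := hx
  have h4 : fp ε φ y ≤ 1 := hy
  have h5 : a * fp ε φ x + b * fp ε φ y ≤ a * 1 + b * 1 :=
    add_le_add (mul_le_mul_of_nonneg_left h3 ha.le) (mul_le_mul_of_nonneg_left h4 hb.le)
  linarith

theorem frontier_eq (h : Small ε φ) {x : Euc n} (hx : x ∈ frontier (body ε φ)) :
    fp ε φ x = 1 := by
  have h1 : fp ε φ x ≤ 1 := h.isClosed.frontier_subset hx
  refine le_antisymm h1 ?_
  by_contra hcon
  push Not at hcon
  exact hx.2 (h.interior_of_lt hcon)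

theorem isTable (h : Small ε φ) {y : Euc n} (hy : fp ε φ y < 1) : IsTable (body ε φ) where
  isCompact := Metric.isCompact_of_isClosed_isBounded h.isClosed
    ((Metric.isBounded_closedBall (x := (0 : Euc n)) (r := 2)).subset fun x hx => by
      rw [mem_closedBall_zero_iff]
      have h1 : ‖x‖ ^ 2 + ε * φ x ≤ 1 := hx
      have h2 := (abs_le.1 (h.bd x)).1
      nlinarith [norm_nonneg x])
  nonempty := ⟨y, h.interior_of_lt hy⟩
  strictConvex := h.strictConvex
  smooth := by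
    intro x hx
    have hx1 := h.frontier_eq hx
    refine ⟨fun z => fp ε φ z - 1, h.contDiff.sub contDiff_const, ?_, ?_, ?_⟩
    · intro hg
      have hxy : y - x ≠ 0 := by
        intro h0
        rw [sub_eq_zero.1 h0] at hy
        linarith
      have hdiff : DifferentiableAt ℝ (fun z => fp ε φ z - 1) x :=
        ((h.contDiff.sub contDiff_const).differentiable (by simp)).differentiableAt
      have h1 : HasGradientAt (fun z => fp ε φ z - 1) 0 x := hg ▸ hdiff.hasGradientAt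
      rw [hasGradientAt_iff_hasFDerivAt, map_zero] at h1
      have hl : HasDerivAt (fun s : ℝ => x + s • (y - x)) (y - x) 0 := by
        simpa using ((hasDerivAt_id (0 : ℝ)).smul_const (y - x)).const_add x
      have hc : HasDerivAt (fun s : ℝ => fp ε φ (x + s • (y - x)) - 1) 0 0 := by
        have := HasFDerivAt.comp_hasDerivAt (x := (0 : ℝ)) (f := fun s : ℝ => x + s • (y - x))
          (l := fun z => fp ε φ z - 1) (l' := 0) (by simpa using h1) hl
        exact this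
      have hc' : deriv (fun s : ℝ => fp ε φ (x + s • (y - x))) 0 = 0 := by
        have := (hc.add_const 1)
        simp only [sub_add_cancel] at this
        exact this.deriv
      have hs := (h.strictConvexOn x hxy).convexOn
      have h5 := hs.deriv_le_slope (mem_univ (0 : ℝ)) (mem_univ (1 : ℝ)) one_pos
        (fp_deriv h.cd ε x (y - x) 0).differentiableAt
      rw [hc', slope_def_field] at h5
      simp at h5
      linarith
    · exact Eventually.of_forall fun z => by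
        show fp ε φ z ≤ 1 ↔ fp ε φ z - 1 ≤ 0
        constructor <;> intro h <;> linarith
    · intro v hv _
      have h1 := h.deriv2_pos x hv 0
      have he : (deriv fun s : ℝ => fp ε φ (x + s • v) - 1) =
          deriv fun s : ℝ => fp ε φ (x + s • v) := by
        ext s
        rw [deriv_sub_const]
      rw [he]
      exact h1

end Small

/-! ### ellipsoids that agree with the ball near the equator -/

theorem ball_of_ellipsoid {Ω : Set (Euc n)} {i j : Fin n} {c₀ : ℝ} (h0 : 0 < c₀) (h1 : c₀ < 1)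
    (hA : AgreesWithBall Ω i j c₀) (hE : IsEllipsoid Ω) : Ω = Metric.closedBall 0 1 := by
  obtain ⟨A, hΩ⟩ := hE
  set B := A.symm with hB
  have hBc : Continuous B := B.toAffineMap.continuous_of_finiteDimensional
  have hmem : ∀ x, x ∈ Ω ↔ ‖B x‖ ≤ 1 := by
    intro x
    rw [hΩ]
    constructor
    · rintro ⟨u, hu, rfl⟩
      rw [hB, AffineEquiv.symm_apply_apply]
      simpa using hu
    · intro h
      exact ⟨B x, by simpa using h, by rw [hB, AffineEquiv.apply_symm_apply]⟩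
  have hone : ∀ x : Euc n, ‖x‖ = 1 → c₀ ^ 2 < x i ^ 2 + x j ^ 2 → ‖B x‖ = 1 := by
    intro x hx hr
    have h2 : ‖B x‖ ≤ 1 := (hmem x).1 ((hA x hr.le).2 hx.le)
    refine le_antisymm h2 ?_
    by_contra hcon
    push Not at hcon
    have hc : Continuous fun s : ℝ => ‖B (x + s • x)‖ := by fun_prop
    have h2 : ∀ᶠ s : ℝ in 𝓝 0, ‖B (x + s • x)‖ < 1 := by
      exact (hc.tendsto 0).eventually (gt_mem_nhds (by simpa using hcon))
    obtain ⟨δ, hδ, hs⟩ := Metric.eventually_nhds_iff.1 h2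
    obtain ⟨δ', hδ', hs'⟩ := near i j x hr
    set s := min (δ / 2) (δ' / 2) with hsdef
    have hs0 : 0 < s := lt_min (by linarith) (by linarith)
    have hsδ : s < δ := lt_of_le_of_lt (min_le_left _ _) (by linarith)
    have hsδ' : s < δ' := lt_of_le_of_lt (min_le_right _ _) (by linarith)
    have h4 := hs (y := s) (by rw [Real.dist_eq, sub_zero, abs_of_pos hs0]; exact hsδ)
    have h5 : x + s • x ∈ Ω := (hmem _).2 h4.le
    have h6 := (hA _ (hs' s hs0.le hsδ').le).1 h5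
    have h7 : x + s • x = (1 + s) • x := by rw [add_smul, one_smul]
    rw [h7, norm_smul, hx, mul_one, Real.norm_eq_abs, abs_of_pos (by linarith)] at h6
    linarith
  -- linear part
  set M := B.linear with hM
  set c := B 0 with hc
  have hBM : ∀ x, B x = M x + c := by
    intro x
    have := B.map_vadd 0 x
    simpa [vadd_eq_add] using this
  set κ := 1 - ‖c‖ ^ 2 with hκ
  have hsq : ∀ x : Euc n, ‖x‖ = 1 → c₀ ^ 2 < x i ^ 2 + x j ^ 2 →
      ‖M x‖ ^ 2 = κ ∧ ⟪M x, c⟫ = 0 := by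
    intro x hx hr
    have h1 := hone x hx hr
    have h2 := hone (-x) (by rw [norm_neg, hx]) (by simpa using hr)
    rw [hBM] at h1 h2
    rw [map_neg] at h2
    have h3 : ‖M x + c‖ ^ 2 = 1 := by rw [h1]; norm_num
    have h4 : ‖-M x + c‖ ^ 2 = 1 := by rw [h2]; norm_num
    rw [norm_add_sq_real] at h3 h4
    rw [norm_neg, inner_neg_left] at h4
    constructor <;> linarith
  set e : Euc n := EuclideanSpace.single i (1 : ℝ) with he
  have hen : ‖e‖ = 1 := by simp [he]
  have hei : e i = 1 := by simp [he]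
  have he' := hsq e hen (by
    rw [hei]
    have : c₀ ^ 2 < 1 ^ 2 := pow_lt_pow_left₀ h1 h0.le (by norm_num)
    nlinarith [sq_nonneg (e j)])
  have hκ0 : 0 < κ := by
    rw [← he'.1]
    have : M e ≠ 0 := by
      intro h
      have : e = 0 := M.injective (a₁ := e) (a₂ := 0) (by rw [h, map_zero])
      rw [this, norm_zero] at hen
      exact zero_ne_one hen
    have h3 : 0 < ‖M e‖ := norm_pos_iff.2 this
    positivity
  set c₁ := (c₀ + 1) / 2 with hc1
  have hc1a : c₀ < c₁ := by rw [hc1]; linarith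
  have hc1b : c₁ < 1 := by rw [hc1]; linarith
  have hc1c : 0 < c₁ := by linarith
  set s₁ := Real.sqrt (1 - c₁ ^ 2) with hs1
  have hs1a : 0 < 1 - c₁ ^ 2 := by nlinarith
  have hs1b : s₁ ^ 2 = 1 - c₁ ^ 2 := Real.sq_sqrt hs1a.le
  have hs1c : 0 < s₁ := Real.sqrt_pos.2 hs1a
  have hunit : ∀ w : Euc n, ‖w‖ = 1 → w i = 0 → ‖M w‖ ^ 2 = κ ∧ ⟪M e, M w⟫ = 0 ∧ ⟪M w, c⟫ = 0 := by
    intro w hw hwi
    have hew : ⟪e, w⟫ = 0 := by
      rw [he, EuclideanSpace.inner_single_left, hwi]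
      simp
    have key : ∀ σ : ℝ, σ ^ 2 = 1 → ‖M (c₁ • e + (σ * s₁) • w)‖ ^ 2 = κ ∧
        ⟪M (c₁ • e + (σ * s₁) • w), c⟫ = 0 := by
      intro σ hσ
      apply hsq
      · have : ‖c₁ • e + (σ * s₁) • w‖ ^ 2 = 1 := by
          rw [norm_add_sq_real, real_inner_smul_left, real_inner_smul_right, hew, norm_smul,
            norm_smul, hen, hw, Real.norm_eq_abs, Real.norm_eq_abs, mul_one, mul_one, sq_abs,
            sq_abs, mul_pow, hσ, hs1b]
          ring
        have h0 := norm_nonneg (c₁ • e + (σ * s₁) • w)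
        nlinarith
      · have h3 : (c₁ • e + (σ * s₁) • w) i = c₁ := by
          simp [hei, hwi]
        rw [h3]
        have : c₀ ^ 2 < c₁ ^ 2 := pow_lt_pow_left₀ hc1a h0.le (by norm_num)
        nlinarith [sq_nonneg ((c₁ • e + (σ * s₁) • w) j)]
    obtain ⟨k1, k2⟩ := key 1 (by norm_num)
    obtain ⟨k3, k4⟩ := key (-1) (by norm_num)
    rw [map_add, map_smul, map_smul] at k1 k2 k3 k4
    rw [norm_add_sq_real, norm_smul, norm_smul, real_inner_smul_left, real_inner_smul_right,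
      mul_pow, mul_pow, Real.norm_eq_abs, Real.norm_eq_abs, sq_abs, sq_abs, he'.1] at k1 k3
    rw [inner_add_left, real_inner_smul_left, real_inner_smul_left, he'.2] at k2 k4
    have hcs : c₁ * s₁ ≠ 0 := by positivity
    have q1 : ⟪M e, M w⟫ = 0 := by
      have : 4 * (c₁ * s₁) * ⟪M e, M w⟫ = 0 := by linarith
      rcases mul_eq_zero.1 this with h | h
      · exact absurd h (by positivity)
      · exact h
    rw [q1] at k1
    refine ⟨?_, q1, ?_⟩
    · have h5 : s₁ ^ 2 * ‖M w‖ ^ 2 = s₁ ^ 2 * κ := by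
        have h6 : s₁ ^ 2 * ‖M w‖ ^ 2 = κ - c₁ ^ 2 * κ := by linarith
        rw [h6, hs1b]
        ring
      exact mul_left_cancel₀ (by positivity) h5
    · have h6 : (1 * s₁) * ⟪M w, c⟫ = 0 := by linarith
      rcases mul_eq_zero.1 h6 with h | h
      · exact absurd h (by positivity)
      · exact h
  have hall : ∀ x : Euc n, ‖B x‖ ^ 2 = κ * ‖x‖ ^ 2 + (1 - κ) := by
    intro x
    set u := x - x i • e with hu
    have hui : u i = 0 := by
      rw [hu]
      simp [hei]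
    have hx : x = x i • e + u := by
      rw [hu]
      abel
    have heu : ⟪e, u⟫ = 0 := by
      rw [he, EuclideanSpace.inner_single_left, hui]
      simp
    have hMu : ‖M u‖ ^ 2 = κ * ‖u‖ ^ 2 ∧ ⟪M e, M u⟫ = 0 ∧ ⟪M u, c⟫ = 0 := by
      by_cases hu0 : u = 0
      · rw [hu0]
        simp
      · have hup : 0 < ‖u‖ := norm_pos_iff.2 hu0
        have hw := hunit (‖u‖⁻¹ • u) (by
          rw [norm_smul, norm_inv, norm_norm, inv_mul_cancel₀ hup.ne']) (by simp [hui])
        rw [map_smul, norm_smul, norm_inv, norm_norm, real_inner_smul_left,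
          real_inner_smul_right] at hw
        obtain ⟨w1, w2, w3⟩ := hw
        refine ⟨?_, ?_, ?_⟩
        · rw [← w1]
          field_simp
        · rcases mul_eq_zero.1 w2 with h | h
          · exact absurd h (by positivity)
          · exact h
        · rcases mul_eq_zero.1 w3 with h | h
          · exact absurd h (by positivity)
          · exact h
    have hxn : ‖x‖ ^ 2 = x i ^ 2 + ‖u‖ ^ 2 := by
      conv_lhs => rw [hx]
      rw [norm_add_sq_real, real_inner_smul_left, heu, norm_smul, hen, mul_one, Real.norm_eq_abs,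
        sq_abs]
      ring
    have hMx : ‖M x‖ ^ 2 = κ * ‖x‖ ^ 2 := by
      rw [hxn]
      conv_lhs => rw [hx]
      rw [map_add, map_smul, norm_add_sq_real, real_inner_smul_left, hMu.2.1, norm_smul, mul_pow,
        he'.1, hMu.1, Real.norm_eq_abs, sq_abs]
      ring
    have hMc : ⟪M x, c⟫ = 0 := by
      conv_lhs => rw [hx]
      rw [map_add, map_smul, inner_add_left, real_inner_smul_left, he'.2, hMu.2.2]
      ring
    rw [hBM, norm_add_sq_real, hMx, hMc, hκ]
    ring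
  ext x
  rw [hmem, mem_closedBall_zero_iff]
  have h2 := hall x
  have h3 := norm_nonneg x
  have h4 := norm_nonneg (B x)
  constructor
  · intro h
    have h5 : ‖B x‖ ^ 2 ≤ 1 := by nlinarith
    have h6 : κ * (‖x‖ ^ 2 - 1) ≤ 0 := by linarith
    have h7 : ‖x‖ ^ 2 - 1 ≤ 0 := by
      by_contra hcon
      push Not at hcon
      have := mul_pos hκ0 hcon
      linarith
    nlinarith
  · intro h
    have h5 : ‖x‖ ^ 2 ≤ 1 := by nlinarith
    have h6 : ‖B x‖ ^ 2 ≤ 1 := by nlinarith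
    nlinarith

end Pool.Agent.U660.Bil
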